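import Mathlib
import Pool.Agent.Helper75.OH.Defs
import Pool.Agent.Helper75.OH.P_main

set_option autoImplicit false

namespace Pool.Agent.Results.MP_5f19f1_al.UpToOmegaPow

/-- Every ordinal `α ≤ ω ^ (ω + 1)` is the ordinal height of a variety of groups (varieties are
given by fully invariant subgroups of the free group on `ℕ`, a larger subgroup being a smaller
variety): every well-ordered chain of proper subvarieties has type at most `α`, and for each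
`β < α` some such chain has type above `β`. -/
theorem result :
  ∀ α : Ordinal.{0}, α ≤ Ordinal.omega0 ^ (Ordinal.omega0 + 1) →
    ∃ N : Subgroup (FreeGroup ℕ),
      (∀ φ : FreeGroup ℕ →* FreeGroup ℕ, ∀ x ∈ N, φ x ∈ N) ∧
      (∀ S : Set (Subgroup (FreeGroup ℕ)),
        (∀ M ∈ S, (∀ φ : FreeGroup ℕ →* FreeGroup ℕ, ∀ x ∈ M, φ x ∈ M) ∧ N < M) →
        IsChain (· ≤ ·) S →
        (∀ T ⊆ S, T.Nonempty → ∃ M ∈ T, ∀ M' ∈ T, M' ≤ M) →
        ∃ f : Subgroup (FreeGroup ℕ) → Ordinal.{0},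
          (∀ A ∈ S, f A < α) ∧ (∀ A ∈ S, ∀ B ∈ S, B < A → f A < f B)) ∧
      (∀ β < α, ∃ g : Ordinal.{0} → Subgroup (FreeGroup ℕ),
        (∀ γ ≤ β, (∀ φ : FreeGroup ℕ →* FreeGroup ℕ, ∀ x ∈ g γ, φ x ∈ g γ) ∧ N < g γ) ∧
        (∀ γ δ : Ordinal.{0}, γ < δ → δ ≤ β → g δ < g γ)) := by
  intro α hα
  obtain ⟨N, h1, h2, h3⟩ := Pool.Agent.Helper75.OH.main α hα
  exact ⟨N, h1, h2, h3⟩

end Pool.Agent.Results.MP_5f19f1_al.UpToOmegaPow
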